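import Pool.Agent.Y786.KR.Main

/-!
# The Kraft theorem for free groups

Let `aMax r n` be `(2r-1)^(n/2)` for even `n` and `r (2r-1)^((n-1)/2)` for odd `n`. For `n ≥ 1` this
is the largest cardinality of a subset of the sphere of radius `n` of the free group of rank `r`
that freely generates a subgroup (the answer to the question); it is also the largest
cardinality of such a subset of the whole ball of radius `n`.

New: a complete description of the lengths of the elements of free bases of subgroups. For every
family `l` of natural numbers (finite or infinite, indexed by any set) there is a family of elements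
of `F_r` that freely generates a subgroup and has the lengths `l i` if and only if all `l i` are
positive and `∑ 1 / aMax r (l i) ≤ 1` (an analogue for free groups of the theorem of Kraft and
McMillan on codes).
-/

namespace Pool.Agent.Results.MP_689404_al.KraftTheorem

open Pool.Agent.Y786.KR

universe u

/-- `(2r-1)^(n/2)` for even `n` and `r (2r-1)^((n-1)/2)` for odd `n`. -/
def aMax (r n : ℕ) : ℕ :=
  if Even n then (2 * r - 1) ^ (n / 2) else r * (2 * r - 1) ^ ((n - 1) / 2)

/-- The family `a` freely generates a subgroup: the homomorphism from the free group on the index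
set which extends `a` is injective. -/
def Free {r : ℕ} {ι : Type u} (a : ι → FreeGroup (Fin r)) : Prop :=
  Function.Injective (FreeGroup.lift a)

theorem wt_eq (r n : ℕ) (hr : 1 ≤ r) : wt r n = 1 / (aMax r n : ℝ) := by
  have hqc : ((2 * r - 1 : ℕ) : ℝ) = 2 * r - 1 := by
    rw [Nat.cast_sub (by omega)]
    push_cast
    ring
  rcases Nat.even_or_odd' n with ⟨k, rfl | rfl⟩
  · have : 2 * k / 2 = k := by omega
    rw [wt_even, aMax, if_pos (even_two_mul k), this]
    push_cast
    rw [hqc]
  · have : (2 * k + 1 - 1) / 2 = k := by omega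
    rw [wt_odd, aMax, if_neg (by simp), this]
    push_cast
    rw [hqc]

/-- **The Kraft theorem for free groups**, with the largest free subsets of spheres and balls. -/
theorem result (r : ℕ) (hr : 1 ≤ r) :
    (∀ (ι : Type u) (l : ι → ℕ),
      (∃ a : ι → FreeGroup (Fin r), Free a ∧ ∀ i, (a i).norm = l i) ↔
        (∀ i, 1 ≤ l i) ∧ Summable (fun i => 1 / (aMax r (l i) : ℝ)) ∧
          ∑' i, 1 / (aMax r (l i) : ℝ) ≤ 1) ∧
    ∀ n : ℕ, 1 ≤ n →
      IsGreatest {m : ℕ | ∃ A : Finset (FreeGroup (Fin r)), (∀ a ∈ A, a.norm = n) ∧
        Free (fun a : A => (a : FreeGroup (Fin r))) ∧ A.card = m} (aMax r n) ∧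
      IsGreatest {m : ℕ | ∃ A : Finset (FreeGroup (Fin r)), (∀ a ∈ A, a.norm ≤ n) ∧
        Free (fun a : A => (a : FreeGroup (Fin r))) ∧ A.card = m} (aMax r n) := by
  refine ⟨fun ι l => ?_, fun n hn => ?_⟩
  · have h := kraft_iff hr l
    simp only [wt_eq r _ hr] at h
    exact h
  · have h := SphereRank.result r n hr hn
    refine ⟨h, ?_, ?_⟩
    · obtain ⟨A, h1, h2, h3⟩ := h.1
      exact ⟨A, fun a ha => (h1 a ha).le, h2, h3⟩
    · rintro m ⟨A, h1, h2, rfl⟩
      unfold aMax
      rcases Nat.even_or_odd' n with ⟨k, rfl | rfl⟩
      · have h3 : 2 * k / 2 = k := by omega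
        rw [if_pos (even_two_mul k), h3]
        exact SphereRank.Upper.upper_even hr k A h1 h2
      · have h3 : (2 * k + 1 - 1) / 2 = k := by omega
        rw [if_neg (by simp), h3]
        exact SphereRank.Upper.upper_odd hr k A h1 h2

end Pool.Agent.Results.MP_689404_al.KraftTheorem
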